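import Pool.Agent.N671.DA.Tup

/-!
# Thin sets of integral vectors: it suffices to count in shells (helper918)
-/

set_option autoImplicit false

namespace Pool.Agent.N918.DA

open Pool.Agent.N671.DA (Thin box_fin box_card)

/-- the maximum norm -/
lemma norm_le_iff {k : ℕ} (q : Fin k → ℤ) {X : ℝ} (hX : 0 ≤ X) : ‖q‖ ≤ X ↔ ∀ i, |(q i : ℝ)| ≤ X := by
  rw [pi_norm_le_iff_of_nonneg hX]
  simp only [Int.norm_eq_abs]

/-- a power saving for the vectors with norm in `(X / 2, X]` suffices -/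
theorem thin_of_shell {k : ℕ} {W : Set (Fin k → ℤ)} {s A : ℝ} (hs : 0 ≤ s)
    (hW : ∀ X : ℝ, 2 ≤ X →
      (({q : Fin k → ℤ | q ∈ W ∧ X / 2 < ‖q‖ ∧ ‖q‖ ≤ X}.ncard : ℕ) : ℝ) ≤ A * X ^ s) :
    Thin W s := by
  intro ε hε
  obtain ⟨t, ht⟩ : ∃ t : ℝ, t = s + ε := ⟨_, rfl⟩
  have ht0 : 0 < t := by linarith
  obtain ⟨θ, hθ⟩ : ∃ θ : ℝ, θ = (1 / 2 : ℝ) ^ t := ⟨_, rfl⟩
  have hθ1 : θ < 1 := by
    rw [hθ]
    exact Real.rpow_lt_one (by norm_num) (by norm_num) ht0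
  have hθ0 : 0 < θ := by
    rw [hθ]
    positivity
  obtain ⟨C, hC⟩ : ∃ C : ℝ, C = |A| / (1 - θ) + 5 ^ k := ⟨_, rfl⟩
  have h1θ : 0 < 1 - θ := by linarith
  have hC5 : (5 : ℝ) ^ k ≤ C := by
    rw [hC]
    have : 0 ≤ |A| / (1 - θ) := by positivity
    linarith
  have hCA : C * θ + |A| ≤ C := by
    have h1 : C * (1 - θ) = |A| + 5 ^ k * (1 - θ) := by
      rw [hC, add_mul, div_mul_cancel₀ _ h1θ.ne']
    have h2 : (0 : ℝ) ≤ 5 ^ k * (1 - θ) := by positivity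
    linarith
  have hC0 : 0 ≤ C := le_trans (by positivity) hC5
  have small : ∀ X : ℝ, 1 ≤ X → X < 2 →
      (({q : Fin k → ℤ | q ∈ W ∧ ∀ i, |(q i : ℝ)| ≤ X}.ncard : ℕ) : ℝ) ≤ C * X ^ t := by
    intro X hX1 hX2
    have h1 : (({q : Fin k → ℤ | q ∈ W ∧ ∀ i, |(q i : ℝ)| ≤ X}.ncard : ℕ) : ℝ) ≤
        (({q : Fin k → ℤ | ∀ i, |(q i : ℝ)| ≤ X}.ncard : ℕ) : ℝ) := by
      refine Nat.cast_le.2 (Set.ncard_le_ncard ?_ (box_fin X))
      rintro q ⟨_, h⟩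
      exact h
    have h2 := box_card (ι := Fin k) X (by linarith)
    rw [Fintype.card_fin] at h2
    have h3 : (2 * X + 1) ^ k ≤ (5 : ℝ) ^ k := pow_le_pow_left₀ (by linarith) (by linarith) k
    have h4 : (1 : ℝ) ≤ X ^ t := Real.one_le_rpow hX1 ht0.le
    calc _ ≤ (5 : ℝ) ^ k := h1.trans (h2.trans h3)
      _ ≤ C := hC5
      _ = C * 1 := (mul_one _).symm
      _ ≤ C * X ^ t := mul_le_mul_of_nonneg_left h4 hC0
  have key : ∀ n : ℕ, ∀ X : ℝ, 1 ≤ X → X < 2 ^ (n + 1) →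
      (({q : Fin k → ℤ | q ∈ W ∧ ∀ i, |(q i : ℝ)| ≤ X}.ncard : ℕ) : ℝ) ≤ C * X ^ t := by
    intro n
    induction n with
    | zero =>
      intro X hX1 hX2
      exact small X hX1 (by simpa using hX2)
    | succ n ih =>
      intro X hX1 hX2
      by_cases hX : X < 2
      · exact small X hX1 hX
      · push Not at hX
        have h1 := ih (X / 2) (by linarith) (by rw [pow_succ] at hX2; linarith)
        have h2 := hW X hX
        have hsub : {q : Fin k → ℤ | q ∈ W ∧ ∀ i, |(q i : ℝ)| ≤ X} ⊆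
            {q : Fin k → ℤ | q ∈ W ∧ ∀ i, |(q i : ℝ)| ≤ X / 2} ∪
              {q : Fin k → ℤ | q ∈ W ∧ X / 2 < ‖q‖ ∧ ‖q‖ ≤ X} := by
          rintro q ⟨hq1, hq2⟩
          by_cases hq : ‖q‖ ≤ X / 2
          · exact Or.inl ⟨hq1, (norm_le_iff q (by linarith)).1 hq⟩
          · exact Or.inr ⟨hq1, not_le.1 hq, (norm_le_iff q (by linarith)).2 hq2⟩
        have hfin : ({q : Fin k → ℤ | q ∈ W ∧ ∀ i, |(q i : ℝ)| ≤ X / 2} ∪
            {q : Fin k → ℤ | q ∈ W ∧ X / 2 < ‖q‖ ∧ ‖q‖ ≤ X}).Finite :=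
          ((box_fin (X / 2)).subset fun q hq => hq.2).union
            ((box_fin X).subset fun q hq => (norm_le_iff q (by linarith)).1 hq.2.2)
        have h3 : (({q : Fin k → ℤ | q ∈ W ∧ ∀ i, |(q i : ℝ)| ≤ X}.ncard : ℕ) : ℝ) ≤
            (({q : Fin k → ℤ | q ∈ W ∧ ∀ i, |(q i : ℝ)| ≤ X / 2}.ncard : ℕ) : ℝ) +
              (({q : Fin k → ℤ | q ∈ W ∧ X / 2 < ‖q‖ ∧ ‖q‖ ≤ X}.ncard : ℕ) : ℝ) := by
          exact_mod_cast (Set.ncard_le_ncard hsub hfin).trans (Set.ncard_union_le _ _)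
        have h4 : (X / 2) ^ t = θ * X ^ t := by
          rw [hθ, ← Real.mul_rpow (by norm_num) (by linarith)]
          congr 1
          ring
        have h5 : A * X ^ s ≤ |A| * X ^ t := by
          have h6 : X ^ s ≤ X ^ t := Real.rpow_le_rpow_of_exponent_le hX1 (by linarith)
          have h7 : 0 ≤ X ^ s := Real.rpow_nonneg (by linarith) _
          calc A * X ^ s ≤ |A| * X ^ s := mul_le_mul_of_nonneg_right (le_abs_self A) h7
            _ ≤ |A| * X ^ t := mul_le_mul_of_nonneg_left h6 (abs_nonneg A)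
        rw [h4] at h1
        have h8 : 0 ≤ X ^ t := Real.rpow_nonneg (by linarith) _
        calc _ ≤ C * (θ * X ^ t) + |A| * X ^ t := by linarith
          _ = (C * θ + |A|) * X ^ t := by ring
          _ ≤ C * X ^ t := mul_le_mul_of_nonneg_right hCA h8
  refine ⟨C, fun X hX => ?_⟩
  rw [← ht]
  obtain ⟨n, hn⟩ := pow_unbounded_of_one_lt X (by norm_num : (1 : ℝ) < 2)
  exact key n X hX (hn.trans_le (pow_le_pow_right₀ (by norm_num) (Nat.le_succ n)))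

end Pool.Agent.N918.DA
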